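import Pool.Agent.L7h69.UN.Stpa

set_option autoImplicit false

/-!
# Project UN, part RICH: a rich extension by finitely many points
-/

namespace Pool.Agent.L7h69.UN

open Set Filter Function Pool.Agent.L7h71.UN

section opt

variable {K V S κ : Type} [Finite K] {ι : S → Type}

open Classical in
theorem itl_append (p : ∀ s, Ultrafilter (ι s → V)) (f : (∀ s, ι s → V) → K) (l l' : List S) :
    ∀ x : ∀ s, ι s → V, itl p f (l ++ l') x = itl p (fun x => itl p f l' x) l x := by
  induction l with
  | nil => exact fun x => rfl
  | cons s l ih =>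
    intro x
    rw [List.cons_append, itl_cons, itl_cons]
    congr 1
    funext y
    exact ih _

/-- the index sets of the blocks with one additional block -/
def OptI (ι : S → Type) (κ : Type) : Option S → Type
  | none => κ
  | some s => ι s

/-- the types -/
noncomputable def optP (p : ∀ s, Ultrafilter (ι s → V)) (q : Ultrafilter (κ → V)) :
    ∀ o, Ultrafilter (OptI ι κ o → V)
  | none => q
  | some s => p s

/-- the tuples -/
def optC (y : κ → V) (u : ∀ s, ι s → V) : ∀ o, OptI ι κ o → V
  | none => y
  | some s => u s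

omit [Finite K] in
theorem optC_update_some {_i1 : DecidableEq S} {_i2 : DecidableEq (Option S)} (y : κ → V) (u : ∀ s, ι s → V) (s : S) (w : ι s → V) :
    Function.update (optC y u) (some s) w = optC y (Function.update u s w) := by
  funext o
  cases o with
  | none =>
    rw [Function.update_of_ne (by simp)]
    rfl
  | some t =>
    show _ = Function.update u s w t
    by_cases h : t = s
    · subst h
      rw [Function.update_self, Function.update_self]
    · rw [Function.update_of_ne h, Function.update_of_ne (fun h' => h (Option.some_injective _ h'))]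
      rfl

omit [Finite K] in
theorem optC_update_none {_i : DecidableEq (Option S)} (y y' : κ → V) (u : ∀ s, ι s → V) :
    Function.update (optC y u) none y' = optC y' u := by
  funext o
  cases o with
  | none => rw [Function.update_self]; rfl
  | some t =>
    rw [Function.update_of_ne (by simp)]
    rfl

open Classical in
theorem itl_some (p : ∀ s, Ultrafilter (ι s → V)) (q : Ultrafilter (κ → V))
    (g : (∀ o, OptI ι κ o → V) → K) (y : κ → V) (l : List S) :
    ∀ u : ∀ s, ι s → V, itl (optP p q) g (l.map some) (optC y u) =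
      itl p (fun u => g (optC y u)) l u := by
  induction l with
  | nil => exact fun u => rfl
  | cons s l ih =>
    intro u
    rw [List.map_cons, itl_cons, itl_cons]
    refine congrArg (fun F : (ι s → V) → K => Pool.Agent.L7h71.UN.lim (p s) F)
      (funext fun w : ι s → V => ?_)
    exact (congrArg (fun t => itl (optP p q) g (l.map some) t)
      (optC_update_some y u s w)).trans (ih _)

end opt

theorem s_RICH (h1 : S_SYM) : S_RICH := by
  classical
  intro r K _ hC V _ _ M hM hfam
  obtain ⟨v0⟩ : Nonempty V := inferInstance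
  choose m rep hrf hrc using hfam
  let S : Type := Σ n : Fin (r + 1), Fin (m n) × Fin (r + 1)
  let ι : S → Type := fun s => Fin (s.1 : ℕ)
  let p : ∀ s : S, Ultrafilter (ι s → V) := fun s => rep s.1 s.2.1
  have hpf : ∀ s, Free (p s) := fun s => hrf _ _
  obtain ⟨-, P, hPF, hP⟩ := h1 r K hC V M hM S ι p hpf
  obtain ⟨k, ⟨e⟩⟩ := Finite.exists_equiv_fin (Σ s : S, ι s)
  obtain ⟨re, hre⟩ : ∃ re : V ⊕ Fin k → V ⊕ (Σ s : S, ι s), re = Sum.map id e.symm := ⟨_, rfl⟩
  have hreinj : Injective re := by
    rw [hre]
    exact Injective.sumMap injective_id e.symm.injective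
  refine ⟨k, fun z => Ext M P (re ∘ z), Finset.univ.map ⟨Sum.inr, Sum.inr_injective⟩,
    Loc.comap (loc_ext hPF) re hreinj, fun x => ?_, fun n hn p' hp' => ?_⟩
  · show Ext M P (re ∘ Sum.inl ∘ x) = M x
    rw [← ext_inl M P x]
    rw [hre]
    rfl
  -- the type over `V`
  obtain ⟨q, hq⟩ : ∃ q : Ultrafilter (Fin n → V),
      q = p'.map fun x i => Sum.elim id (fun _ => v0) (x i) := ⟨_, rfl⟩
  have hconc : ∀ᶠ x : Fin n → V ⊕ Fin k in p', ∀ i, ∃ v, x i = Sum.inl v := by
    refine (hp'.avoid (finite_range (Sum.inr : Fin k → V ⊕ Fin k))).mono fun x hx i => ?_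
    rcases hi : x i with v | t
    · exact ⟨v, rfl⟩
    · exact absurd ⟨t, hi.symm⟩ (hx i)
  have hqf : Free q := by
    rw [hq]
    refine ⟨fun i a => ?_, fun i j hij => ?_⟩
    · rw [Ultrafilter.coe_map, eventually_map]
      filter_upwards [hconc, hp'.1 i (Sum.inl a)] with x h2 h3 h4
      obtain ⟨v, hv⟩ := h2 i
      rw [hv] at h4 h3
      exact h3 (by rw [← h4]; rfl)
    · rw [Ultrafilter.coe_map, eventually_map]
      filter_upwards [hconc, hp'.2 i j hij] with x h2 h3 h4
      obtain ⟨v, hv⟩ := h2 i
      obtain ⟨w, hw⟩ := h2 j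
      rw [hv, hw] at h4 h3
      exact h3 (by rw [show v = w from h4])
  have hlimq : ∀ f : (Fin n → V ⊕ Fin k) → K, lim p' f = lim q fun x => f (Sum.inl ∘ x) := by
    intro f
    rw [hq, lim_map]
    refine lim_congr (hconc.mono fun x hx => ?_)
    congr 1
    funext i
    obtain ⟨v, hv⟩ := hx i
    rw [comp_apply, hv]
    rfl
  obtain ⟨c, hc⟩ := hrc n q hqf
  refine ⟨fun a i => Sum.inr (e ⟨⟨⟨n, Nat.lt_succ_of_le hn⟩, c, a⟩, i⟩), fun a i => ?_,
    fun a a' i i' h => ?_, fun a => ⟨?_, fun z hz => ?_⟩⟩
  · simp
  · have h2 := e.injective (Sum.inr_injective h)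
    simp only [Sigma.mk.injEq, heq_eq_eq] at h2
    obtain ⟨h3, h4⟩ := h2
    have h5 := eq_of_heq (Sigma.mk.inj h3).2
    exact ⟨(Prod.mk.inj h5).2, h4⟩
  · intro i i' h
    have h2 := e.injective (Sum.inr_injective h)
    simp only [Sigma.mk.injEq, heq_eq_eq, true_and] at h2
    exact h2
  -- the computation
  obtain ⟨s0, hs0⟩ : ∃ s0 : S, s0 = ⟨⟨n, Nat.lt_succ_of_le hn⟩, c, a⟩ := ⟨_, rfl⟩
  subst hs0
  let s0 : S := ⟨⟨n, Nat.lt_succ_of_le hn⟩, c, a⟩
  -- the value at `u`, `y`
  let G : (∀ s, ι s → V) → (Fin n → V) → K := fun u y => M fun i =>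
    Sum.elim (Sum.elim id fun t : Fin k => u (e.symm t).1 (e.symm t).2) y (z i)
  let L : List S := (Finset.univ.erase s0).toList
  have hL1 : L.Nodup := Finset.nodup_toList _
  have hL2 : ∀ s, s ∈ L ↔ s ≠ s0 := fun s => by simp [L]
  have hL3 : (L ++ [s0]).Nodup := by
    rw [List.nodup_append]
    refine ⟨hL1, by simp, fun s hs t ht => ?_⟩
    rw [List.mem_singleton.1 ht]
    exact (hL2 s).1 hs
  have hz' : ∀ i t, z i = Sum.inl (Sum.inr t) → (e.symm t).1 ≠ s0 := by
    intro i t hi hs
    obtain ⟨j, hj⟩ : ∃ j : Fin n, (⟨s0, j⟩ : Σ s : S, ι s) = e.symm t := by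
      rcases hw : e.symm t with ⟨s, j⟩
      rw [hw] at hs
      subst hs
      exact ⟨j, rfl⟩
    refine hz i j ?_
    rw [hi]
    congr 2
    rw [hj, e.apply_symm_apply]
  let u0 : ∀ s, ι s → V := fun _ _ => v0
  -- the right side
  have hR : (L7h71.UN.lim p' fun x => Ext M P (re ∘ sub z x)) =
      L7h71.UN.lim q fun y => itl p (fun u => G u y) L u0 := by
    rw [hlimq]
    congr 1
    funext y
    rw [hP (re ∘ sub z (Sum.inl ∘ y)) L hL1 ?_ u0]
    · congr 1
      funext u
      show M _ = M _
      congr 1
      funext i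
      show Sum.elim id _ (re (sub z (Sum.inl ∘ y) i)) = _
      rw [hre]
      unfold sub
      rcases z i with (v | t) | j <;> rfl
    · intro i w hw
      rw [hL2]
      rw [comp_apply, hre] at hw
      unfold sub at hw
      rcases hi : z i with (v | t) | j
      · rw [hi] at hw
        simp at hw
      · rw [hi] at hw
        have hw' : e.symm t = w := by
          simpa using hw
        rw [← hw']
        exact hz' i t hi
      · rw [hi] at hw
        simp at hw
  have hLs : Ext M P (re ∘ sub z fun i => Sum.inr (e ⟨s0, i⟩)) =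
      itl p (fun u => L7h71.UN.lim q fun y => G u y) L u0 := by
    rw [hP _ (L ++ [s0]) hL3 ?_ u0, itl_append]
    · congr 1
      funext u
      rw [itl_cons]
      have h2 : ∀ (inst : DecidableEq S) (y : Fin n → V),
          M (subs (re ∘ sub z fun i => Sum.inr (e ⟨s0, i⟩))
          (@Function.update S (fun s => ι s → V) inst u s0 y)) = M (sub (fun i => Sum.elim (Sum.elim (fun v => Sum.inl v)
            fun t : Fin k => Sum.inl (u (e.symm t).1 (e.symm t).2)) Sum.inr (z i)) y) := by
        intro inst y
        congr 1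
        funext i
        show Sum.elim id _ (re (sub z _ i)) = Sum.elim id y (Sum.elim (Sum.elim (fun v => Sum.inl v)
            fun t : Fin k => Sum.inl (u (e.symm t).1 (e.symm t).2)) Sum.inr (z i))
        rw [hre]
        unfold sub
        rcases hi : z i with (v | t) | j
        · rfl
        · show Function.update u s0 y (e.symm t).1 (e.symm t).2 = u (e.symm t).1 (e.symm t).2
          rw [Function.update_of_ne (hz' i t hi)]
        · show Function.update u s0 y (e.symm (e ⟨s0, j⟩)).1 (e.symm (e ⟨s0, j⟩)).2 = y j
          rw [e.symm_apply_apply, Function.update_self]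
      refine (congrArg (fun F : (Fin n → V) → K => L7h71.UN.lim (rep n c) F)
        (funext fun y => h2 (fun a b => Classical.propDecidable (a = b)) y)).trans ?_
      refine (congrFun hc.symm (fun i => Sum.elim (Sum.elim (fun v => Sum.inl v)
            fun t : Fin k => Sum.inl (u (e.symm t).1 (e.symm t).2)) Sum.inr (z i))).trans ?_
      show L7h71.UN.lim q _ = _
      congr 1
      funext y
      show M _ = M _
      congr 1
      funext i
      unfold sub
      beta_reduce
      rcases z i with (v | t) | j <;> rfl
    · intro i w hw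
      simp only [List.mem_append, List.mem_singleton, hL2]
      exact ne_or_eq _ _
  have hlast : itl (optP p q) (fun w => G (fun s => w (some s)) (w none))
      (none :: L.map some) (optC (fun _ => v0) u0) =
      itl (optP p q) (fun w => G (fun s => w (some s)) (w none))
      (L.map some ++ [none]) (optC (fun _ => v0) u0) := by
    obtain ⟨z1, hz1⟩ : ∃ z1 : Fin r → V ⊕ (Σ o : Option S, OptI ι (Fin n) o),
        z1 = fun i => Sum.elim (Sum.elim Sum.inl
          fun t : Fin k => Sum.inr ⟨some (e.symm t).1, (e.symm t).2⟩)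
          (fun j => Sum.inr ⟨none, j⟩) (z i) := ⟨_, rfl⟩
    have h3 : (fun w => M (subs z1 w)) = fun w : (∀ o, OptI ι (Fin n) o → V) =>
        G (fun s => w (some s)) (w none) := by
      funext w
      show M _ = M _
      congr 1
      funext i
      rw [hz1]
      show Sum.elim id _ _ = _
      beta_reduce
      rcases z i with (v | t) | j <;> rfl
    rw [← h3]
    have : ∀ o : Option S, Countable (OptI ι (Fin n) o) := by
      intro o
      cases o with
      | none => exact inferInstanceAs (Countable (Fin n))
      | some s => exact inferInstanceAs (Countable (ι s))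
    refine (h1 r K hC V M hM (Option S) (OptI ι (Fin n)) (optP p q) ?_).1 z1 _ _ ?_ ?_ _
    · intro o
      cases o with
      | none => exact hqf
      | some s => exact hpf s
    · exact (List.perm_append_singleton _ _).symm
    · rw [List.nodup_cons]
      exact ⟨by simp, hL1.map (Option.some_injective _)⟩
  show Ext M P (re ∘ sub z fun i => Sum.inr (e ⟨s0, i⟩)) =
    L7h71.UN.lim p' fun x => Ext M P (re ∘ sub z x)
  rw [hR, hLs]
  have e1 : itl (optP p q) (fun w => G (fun s => w (some s)) (w none))
      (none :: L.map some) (optC (fun _ => v0) u0) =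
      L7h71.UN.lim q fun y => itl p (fun u => G u y) L u0 := by
    rw [itl_cons]
    refine congrArg (fun F : (Fin n → V) → K => L7h71.UN.lim q F)
      (funext fun w : Fin n → V => ?_)
    exact (congrArg (fun t => itl (optP p q) (fun w => G (fun s => w (some s)) (w none))
      (L.map some) t) (optC_update_none (fun _ => v0) w u0)).trans (itl_some p q _ w L u0)
  have e2 : itl (optP p q) (fun w => G (fun s => w (some s)) (w none))
      (L.map some ++ [none]) (optC (fun _ => v0) u0) =
      itl p (fun u => L7h71.UN.lim q fun y => G u y) L u0 := by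
    rw [itl_append, itl_some]
    congr 1
    funext u
    rw [itl_cons]
    refine congrArg (fun F : (Fin n → V) → K => L7h71.UN.lim q F)
      (funext fun w : Fin n → V => ?_)
    exact (congrArg (fun t => itl (optP p q) (fun w => G (fun s => w (some s)) (w none)) [] t)
      (optC_update_none (fun _ => v0) w u))
  rw [← e1, ← e2]
  exact hlast.symm

end Pool.Agent.L7h69.UN
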