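import Pool.Agent.L7h69.UN.Itl

set_option autoImplicit false

/-!
# Project UN, part STPA: construction of the order configuration
-/

namespace Pool.Agent.L7h69.UN

open Set Filter Function Pool.Agent.L7h71.UN

section pair

variable {K V ι κ : Type}

/-- the type of a pair: first `x`, then `y` -/
noncomputable def P0 (p : Ultrafilter (ι → V)) (q : Ultrafilter (κ → V)) :
    Ultrafilter (ι ⊕ κ → V) :=
  p.bind fun x => q.map fun y => Sum.elim x y

theorem ev_P0 {p : Ultrafilter (ι → V)} {q : Ultrafilter (κ → V)} {R : (ι ⊕ κ → V) → Prop} :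
    (∀ᶠ w in P0 p q, R w) ↔ ∀ᶠ x in p, ∀ᶠ y in q, R (Sum.elim x y) := by
  change (∀ᶠ w in Filter.bind (p : Filter (ι → V))
    (fun x => ((q.map fun y => Sum.elim x y : Ultrafilter (ι ⊕ κ → V)) : Filter (ι ⊕ κ → V))),
      R w) ↔ _
  rw [eventually_bind]
  rfl

theorem P0_free {p : Ultrafilter (ι → V)} {q : Ultrafilter (κ → V)} (hp : Free p)
    (hq : Free q) : Free (P0 p q) := by
  refine ⟨fun i a => ?_, fun i j hij => ?_⟩
  · rw [ev_P0]
    rcases i with i | k
    · exact (hp.1 i a).mono fun x hx => Eventually.of_forall fun y => hx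
    · exact Eventually.of_forall fun x => hq.1 k a
  · rw [ev_P0]
    rcases i with i | k <;> rcases j with j | l
    · exact (hp.2 i j fun h => hij (by rw [h])).mono fun x hx => Eventually.of_forall fun y => hx
    · exact Eventually.of_forall fun x => (hq.1 l (x i)).mono fun y hy h => hy h.symm
    · exact Eventually.of_forall fun x => (hq.1 k (x j)).mono fun y hy h => hy h
    · exact Eventually.of_forall fun x => hq.2 k l fun h => hij (by rw [h])

variable [Finite K]

theorem P0_inl (p : Ultrafilter (ι → V)) (q : Ultrafilter (κ → V)) (h : (ι → V) → K) :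
    lim (P0 p q) (fun w => h fun i => w (Sum.inl i)) = lim p h := by
  unfold P0
  rw [lim_bind]
  congr 1
  funext x
  rw [lim_map]
  exact lim_const q (h x)

theorem P0_inr (p : Ultrafilter (ι → V)) (q : Ultrafilter (κ → V)) (h : (κ → V) → K) :
    lim (P0 p q) (fun w => h fun i => w (Sum.inr i)) = lim q h := by
  unfold P0
  rw [lim_bind]
  have : (fun x : ι → V => lim (q.map fun y => Sum.elim x y) fun w => h fun i => w (Sum.inr i)) =
      fun _ => lim q h := by
    funext x
    rw [lim_map]
    rfl
  rw [this, lim_const]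

end pair

/-- `Loc` and injective reindexing -/
theorem Loc.comap {r : ℕ} {K V W X : Type} {M : St r K V} {N : St r K W} (h : Loc M N)
    (g : X → W) (hg : Injective g) : Loc M fun z : Fin r → X => N (g ∘ z) := by
  classical
  intro F
  obtain ⟨e, he, h1⟩ := h (F.image g)
  refine ⟨e ∘ g, fun a ha b hb hab => hg (he (Finset.mem_coe.2 (Finset.mem_image_of_mem _ ha))
    (Finset.mem_coe.2 (Finset.mem_image_of_mem _ hb)) hab), fun x hx => ?_⟩
  exact h1 (g ∘ x) fun i => Finset.mem_image_of_mem _ (hx i)

theorem s_STPA (h1 : S_PRO) (h2 : S_SPR) : S_STPA := by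
  classical
  intro r K _ n hC V _ _ M hM ι κ _ _ hn p q hp hq τ Λ _
  have hne : Nonempty V := inferInstance
  obtain ⟨v0⟩ := hne
  obtain ⟨P, hPf, hP⟩ := h1 V Λ (fun _ => ι ⊕ κ) (fun _ => P0 p q)
  have hPF : Free P := hPf fun _ => P0_free hp hq
  obtain ⟨re, hre⟩ : ∃ re : V ⊕ Λ × (ι ⊕ κ) → V ⊕ (Σ _ : Λ, ι ⊕ κ),
      re = Sum.map id fun w => ⟨w.1, w.2⟩ := ⟨_, rfl⟩
  have hreinj : Injective re := by
    rw [hre]
    refine Injective.sumMap injective_id ?_
    rintro ⟨a, b⟩ ⟨c, d⟩ h
    simp only [Sigma.mk.injEq, heq_eq_eq] at h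
    rw [h.1, h.2]
  obtain ⟨ev, hevd⟩ : ∃ ev : (Fin r → V ⊕ Λ × (ι ⊕ κ)) → (Λ → ι ⊕ κ → V) → K,
      ev = fun z x => M fun i => Sum.elim id (fun w : Λ × (ι ⊕ κ) => x w.1 w.2) (z i) := ⟨_, rfl⟩
  have hevs : ∀ z : Fin r → V ⊕ Λ × (ι ⊕ κ), (fun x => M (subs (re ∘ z) x)) = ev z := by
    intro z
    funext x
    rw [hevd]
    show M (fun i => Sum.elim id (fun w : (Σ _ : Λ, ι ⊕ κ) => x w.1 w.2) (re (z i))) = _
    congr 1
    funext i
    rw [hre]
    rcases z i with v | w <;> rfl
  have hdep : ∀ (z : Fin r → V ⊕ Λ × (ι ⊕ κ)) (D : Set Λ), (∀ i w, z i = Sum.inr w → w.1 ∈ D) →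
      ∀ x x' : Λ → ι ⊕ κ → V, (∀ s ∈ D, x s = x' s) → ev z x = ev z x' := by
    intro z D hz x x' hx
    rw [hevd]
    show M _ = M _
    congr 1
    funext i
    rcases hi : z i with v | w
    · rfl
    · show x w.1 w.2 = x' w.1 w.2
      rw [hx _ (hz i w hi)]
  have hev : ∀ (z : Fin r → V ⊕ Λ × (ι ⊕ κ)) (l : List Λ), l.Pairwise (· < ·) →
      (∀ i w, z i = Sum.inr w → w.1 ∈ l) → ∀ x0 : Λ → ι ⊕ κ → V,
      Ext M P (re ∘ z) = itl (ι := fun _ : Λ => ι ⊕ κ) (fun _ => P0 p q) (ev z) l x0 := by
    intro z l hl hz x0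
    rw [hP r K M (re ∘ z) l hl ?_ x0, hevs]
    intro i w hw
    rcases hi : z i with v | w'
    · rw [comp_apply, hi, hre] at hw
      simp at hw
    · rw [comp_apply, hi, hre] at hw
      simp only [Sum.map_inr, Sum.inr.injEq] at hw
      rw [← hw]
      exact hz i w' hi
  have hevφ : ∀ (z : Fin r → V ⊕ Λ × (ι ⊕ κ)) (φ : Λ → Λ),
      ev (Sum.map id (Prod.map φ id) ∘ z) = fun x => ev z fun s => x (φ s) := by
    intro z φ
    funext x
    rw [hevd]
    show M _ = M _
    congr 1
    funext i
    rw [comp_apply]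
    rcases z i with v | w <;> rfl
  -- renaming
  have hren : ∀ (z : Fin r → V ⊕ Λ × (ι ⊕ κ)) (φ : Λ → Λ) (l : List Λ), InjOn φ {s | s ∈ l} →
      (l.map φ).Pairwise (· < ·) → (∀ i w, z i = Sum.inr w → w.1 ∈ l) →
      Ext M P (re ∘ (Sum.map id (Prod.map φ id) ∘ z)) =
        itl (ι := fun _ : Λ => ι ⊕ κ) (fun _ => P0 p q) (ev z) l fun _ _ => v0 := by
    intro z φ l hφ hl hz
    rw [hev _ (l.map φ) hl ?_ (fun _ _ => v0), hevφ,
      itl_ren (P0 p q) (ev z) {s | s ∈ l} (hdep z _ hz) φ l (by rwa [union_self]) _]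
    intro i w hw
    rcases hi : z i with v | w'
    · rw [comp_apply, hi] at hw
      simp at hw
    · rw [comp_apply, hi] at hw
      simp only [Sum.map_inr, Sum.inr.injEq] at hw
      rw [← hw]
      exact List.mem_map_of_mem (hz i w' hi)
  have hspread : ∀ (z : Fin r → V ⊕ Λ × (ι ⊕ κ)) (l m : Λ) (L : List Λ),
      (l :: L).Pairwise (· < ·) → (L ++ [m]).Pairwise (· < ·) → l < m →
      (∀ i w, z i = Sum.inr w → w.1 ∈ l :: L) →
      (∀ s ∈ L, cnt (re ∘ z) l + cnt (re ∘ z) s < n) →
      Ext M P (re ∘ z) = Ext M P (re ∘ (Sum.map id (Prod.map (Function.update id l m) id) ∘ z)) := by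
    intro z l m L hl hm hlm hz hcnt
    have hnd : (l :: L).Nodup := hl.imp fun h => ne_of_lt h
    have hndm : (L ++ [m]).Nodup := hm.imp fun h => ne_of_lt h
    have hlL : l ∉ L := (List.nodup_cons.1 hnd).1
    have hmL : m ∉ L := fun h => (List.nodup_append.1 hndm).2.2 m h m (by simp) rfl
    have hmap : (L ++ [l]).map (Function.update id l m) = L ++ [m] := by
      rw [List.map_append, List.map_cons, List.map_nil, Function.update_self]
      congr 1
      conv_rhs => rw [← List.map_id L]
      refine List.map_congr_left fun s hs => ?_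
      rw [Function.update_of_ne (fun h => hlL (by rw [← h]; exact hs))]
    rw [hren z (Function.update id l m) (L ++ [l]) ?_ (by rw [hmap]; exact hm) ?_,
      hev z (l :: L) hl hz (fun _ _ => v0)]
    · have h3 := h2 r K n hC V M hM Λ (fun _ => ι ⊕ κ) (fun _ => P0 p q)
        (fun _ => P0_free hp hq) (re ∘ z) l L hnd hcnt (fun _ _ => v0)
      rw [hevs] at h3
      exact h3
    · have hcase : ∀ s, s ∈ L ++ [l] → (s ∈ L ∧ Function.update id l m s = s) ∨
          (s = l ∧ Function.update id l m s = m) := by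
        intro s hs
        rcases List.mem_append.1 hs with h | h
        · left
          refine ⟨h, ?_⟩
          rw [Function.update_of_ne (fun h' => hlL (by rw [← h']; exact h))]
          rfl
        · right
          have h' : s = l := List.mem_singleton.1 h
          exact ⟨h', by rw [h', Function.update_self]⟩
      intro s hs t ht hst
      rcases hcase s hs with ⟨a1, a2⟩ | ⟨a1, a2⟩ <;> rcases hcase t ht with ⟨b1, b2⟩ | ⟨b1, b2⟩ <;>
        rw [a2, b2] at hst
      · exact hst
      · exact absurd (by rw [← hst]; exact a1) hmL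
      · exact absurd (by rw [hst]; exact b1) hmL
      · rw [a1, b1]
    · intro i w hw
      have := hz i w hw
      simp only [List.mem_append, List.mem_cons] at this ⊢
      tauto
  have hlist : ∀ z : Fin r → V ⊕ Λ × (ι ⊕ κ), ∃ l : List Λ, l.Pairwise (· < ·) ∧
      ∀ s, s ∈ l ↔ ∃ i w, z i = Sum.inr w ∧ w.1 = s := by
    intro z
    have hfin : {s : Λ | ∃ i w, z i = Sum.inr w ∧ w.1 = s}.Finite := by
      have h3 : (range z ∩ range Sum.inr).Finite := (finite_range z).subset inter_subset_left
      refine ((h3.preimage Sum.inr_injective.injOn).image Prod.fst).subset ?_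
      rintro s ⟨i, w, hi, hw⟩
      exact ⟨w, ⟨⟨i, hi⟩, ⟨w, rfl⟩⟩, hw⟩
    refine ⟨hfin.toFinset.sort (· ≤ ·), (Finset.sortedLT_sort _).pairwise, fun s => ?_⟩
    rw [Finset.mem_sort, hfin.mem_toFinset]
    rfl
  have hcle : ∀ (z : Fin r → V ⊕ Λ × (ι ⊕ κ)) (s : Λ) (T : Set (ι ⊕ κ)),
      (∀ i j, z i = Sum.inr (s, j) → j ∈ T) → cnt (re ∘ z) s ≤ T.ncard := by
    intro z s T hT
    refine ncard_le_ncard ?_ T.toFinite
    rintro j ⟨i, hi⟩
    rcases hz : z i with v | w
    · rw [comp_apply, hz, hre] at hi
      simp at hi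
    · rw [comp_apply, hz, hre] at hi
      simp only [Sum.map_inr, Sum.inr.injEq, Sigma.mk.injEq, heq_eq_eq] at hi
      exact hT i j (by rw [hz, ← hi.1, ← hi.2])
  -- the list of the blocks of a tuple
  have htl : ∀ (α : Type) [Finite α] (x : α → Λ × (ι ⊕ κ)), ∃ l : List Λ, l.Pairwise (· < ·) ∧
      ∀ s, s ∈ l ↔ ∃ i, (x i).1 = s := by
    intro α _ x
    have hfin : (range fun i => (x i).1).Finite := finite_range _
    refine ⟨hfin.toFinset.sort (· ≤ ·), (Finset.sortedLT_sort _).pairwise, fun s => ?_⟩
    rw [Finset.mem_sort, hfin.mem_toFinset]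
    rfl
  have hlow2 : ∀ l m : Λ, l ≠ m → ∀ x : Λ → ι ⊕ κ → V,
      ev (Sum.map id (Sum.elim (fun i => (l, Sum.inl i)) fun k => (m, Sum.inr k)) ∘ τ) x =
        M (sub τ (Sum.elim (fun i => x l (Sum.inl i)) fun k => x m (Sum.inr k))) := by
    intro l m hlm x
    rw [hevd]
    show M _ = M _
    congr 1
    funext i
    unfold sub
    rw [comp_apply]
    rcases τ i with v | (i | k) <;> rfl
  have hin2 : ∀ l m : Λ, ∀ i w, (Sum.map id (Sum.elim (fun i => (l, Sum.inl i))
      fun k => (m, Sum.inr k)) ∘ τ : Fin r → V ⊕ Λ × (ι ⊕ κ)) i = Sum.inr w →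
      w.1 = l ∨ w.1 = m := by
    intro l m i w hw
    rw [comp_apply] at hw
    rcases hi : τ i with v | (j | k)
    · rw [hi] at hw
      simp at hw
    · rw [hi] at hw
      simp only [Sum.map_inr, Sum.elim_inl, Sum.inr.injEq] at hw
      rw [← hw]
      exact Or.inl rfl
    · rw [hi] at hw
      simp only [Sum.map_inr, Sum.elim_inr, Sum.inr.injEq] at hw
      rw [← hw]
      exact Or.inr rfl
  refine ⟨fun z => Ext M P (re ∘ z), Loc.comap (loc_ext hPF) re hreinj, ?_, ?_, ?_, ?_, ?_⟩
  · intro z φ hφ
    show Ext M P (re ∘ (Sum.map id (Prod.map φ id) ∘ z)) = Ext M P (re ∘ z)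
    obtain ⟨l, hl, hlz⟩ := hlist z
    have hφ' : StrictMonoOn φ {s | s ∈ l} := by
      have : {s | s ∈ l} = {l | ∃ i w, z i = Sum.inr w ∧ w.1 = l} := by
        ext s
        exact hlz s
      rw [this]
      exact hφ
    rw [hren z φ l hφ'.injOn ?_ fun i w hw => (hlz _).2 ⟨i, w, hw, rfl⟩,
      hev z l hl (fun i w hw => (hlz _).2 ⟨i, w, hw, rfl⟩) (fun _ _ => v0)]
    rw [List.pairwise_map]
    exact hl.imp_of_mem fun {a b} ha hb hab => hφ' ha hb hab
  · intro l m hlm
    show Ext M P (re ∘ _) = _
    rw [hev _ [l, m] (by simpa using hlm) (fun i w hw => by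
      rcases hin2 l m i w hw with h | h <;> simp [h]) (fun _ _ => v0), itl_cons]
    simp only [itl_cons, itl_nil, hlow2 l m hlm.ne, Function.update_self,
      Function.update_of_ne, ne_eq, hlm.ne, not_false_eq_true]
    have h4 : ∀ w : ι ⊕ κ → V, (lim (P0 p q) fun w' =>
        M (sub τ (Sum.elim (fun i => w (Sum.inl i)) fun k => w' (Sum.inr k)))) =
        lim q fun y => M (sub τ (Sum.elim (fun i => w (Sum.inl i)) y)) := fun w =>
      P0_inr p q fun y => M (sub τ (Sum.elim (fun i => w (Sum.inl i)) y))
    simp only [h4]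
    exact P0_inl p q fun x => lim q fun y => M (sub τ (Sum.elim x y))
  · intro l m hlm
    show Ext M P (re ∘ _) = _
    rw [hev _ [m, l] (by simpa using hlm) (fun i w hw => by
      rcases hin2 l m i w hw with h | h <;> simp [h]) (fun _ _ => v0), itl_cons]
    simp only [itl_cons, itl_nil, hlow2 l m hlm.ne', Function.update_self,
      Function.update_of_ne, ne_eq, hlm.ne, not_false_eq_true]
    have h4 : ∀ w' : ι ⊕ κ → V, (lim (P0 p q) fun w =>
        M (sub τ (Sum.elim (fun i => w (Sum.inl i)) fun k => w' (Sum.inr k)))) =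
        lim p fun x => M (sub τ (Sum.elim x fun k => w' (Sum.inr k))) := fun w' =>
      P0_inl p q fun x => M (sub τ (Sum.elim x fun k => w' (Sum.inr k)))
    simp only [h4]
    exact P0_inr p q fun y => lim p fun x => M (sub τ (Sum.elim x y))
  · intro x hx hne l m hl hm
    obtain ⟨L, hL, hLx⟩ := htl ι x
    obtain ⟨i0, j0, hij⟩ := hne
    show Ext M P (re ∘ _) = Ext M P (re ∘ _)
    have hlm : l < m := (hl i0).trans (hm i0)
    rw [hspread _ l m L ?_ ?_ hlm ?_ ?_]
    · congr 2
      funext i
      simp only [comp_apply]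
      rcases τ i with v | (i | k)
      · rfl
      · show Sum.inr (Function.update id l m (x i).1, (x i).2) = Sum.inr (x i)
        rw [Function.update_of_ne (hl i).ne']
        rfl
      · show Sum.inr (Function.update id l m l, Sum.inr k) = Sum.inr (m, Sum.inr k)
        rw [Function.update_self]
    · rw [List.pairwise_cons]
      refine ⟨fun s hs => ?_, hL⟩
      obtain ⟨i, hi⟩ := (hLx s).1 hs
      rw [← hi]
      exact hl i
    · rw [List.pairwise_append]
      refine ⟨hL, by simp, fun s hs t ht => ?_⟩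
      obtain ⟨i, hi⟩ := (hLx s).1 hs
      rw [List.mem_singleton.1 ht, ← hi]
      exact hm i
    · intro i w hw
      rw [comp_apply] at hw
      rcases hi : τ i with v | (j | k)
      · rw [hi] at hw
        simp at hw
      · rw [hi] at hw
        simp only [Sum.map_inr, Sum.elim_inl, Sum.inr.injEq] at hw
        rw [← hw]
        exact List.mem_cons_of_mem _ ((hLx _).2 ⟨j, rfl⟩)
      · rw [hi] at hw
        simp only [Sum.map_inr, Sum.elim_inr, Sum.inr.injEq] at hw
        rw [← hw]
        simp
    · intro s hs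
      have c1 : cnt (re ∘ (Sum.map id (Sum.elim x fun k => (l, Sum.inr k)) ∘ τ :
          Fin r → V ⊕ Λ × (ι ⊕ κ))) l ≤ Nat.card κ := by
        refine (hcle _ l (range Sum.inr) ?_).trans ?_
        · intro i j hj
          rw [comp_apply] at hj
          rcases hi : τ i with v | (a | k)
          · rw [hi] at hj
            simp at hj
          · rw [hi] at hj
            simp only [Sum.map_inr, Sum.elim_inl, Sum.inr.injEq] at hj
            have := hl a
            rw [hj] at this
            exact absurd this (lt_irrefl _)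
          · rw [hi] at hj
            simp only [Sum.map_inr, Sum.elim_inr, Sum.inr.injEq, Prod.mk.injEq, true_and] at hj
            exact ⟨k, hj⟩
        · rw [← image_univ, ncard_image_of_injective _ Sum.inr_injective, ncard_univ]
      have c2 : cnt (re ∘ (Sum.map id (Sum.elim x fun k => (l, Sum.inr k)) ∘ τ :
          Fin r → V ⊕ Λ × (ι ⊕ κ))) s < Nat.card ι := by
        obtain ⟨s', hs'⟩ := (hLx s).1 hs
        refine (hcle _ s ((fun i => (x i).2) '' {i | (x i).1 = s}) ?_).trans_lt ?_
        · intro i j hj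
          rw [comp_apply] at hj
          rcases hi : τ i with v | (a | k)
          · rw [hi] at hj
            simp at hj
          · rw [hi] at hj
            simp only [Sum.map_inr, Sum.elim_inl, Sum.inr.injEq] at hj
            exact ⟨a, by show (x a).1 = s; rw [hj], by show (x a).2 = j; rw [hj]⟩
          · rw [hi] at hj
            simp only [Sum.map_inr, Sum.elim_inr, Sum.inr.injEq, Prod.mk.injEq] at hj
            have := hl s'
            rw [hs', ← hj.1] at this
            exact absurd this (lt_irrefl _)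
        · refine (ncard_image_le (toFinite _)).trans_lt ?_
          rw [← ncard_univ]
          refine ncard_lt_ncard ?_ finite_univ
          rw [ssubset_univ_iff]
          intro h
          have a1 : (x i0).1 = s := by
            have : i0 ∈ {i | (x i).1 = s} := by rw [h]; exact mem_univ _
            exact this
          have a2 : (x j0).1 = s := by
            have : j0 ∈ {i | (x i).1 = s} := by rw [h]; exact mem_univ _
            exact this
          exact hij (a1.trans a2.symm)
      omega
  · intro y hy hne l m hl hm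
    obtain ⟨L, hL, hLx⟩ := htl κ y
    obtain ⟨i0, j0, hij⟩ := hne
    show Ext M P (re ∘ _) = Ext M P (re ∘ _)
    have hlm : l < m := (hl i0).trans (hm i0)
    rw [hspread _ l m L ?_ ?_ hlm ?_ ?_]
    · congr 2
      funext i
      simp only [comp_apply]
      rcases τ i with v | (i | k)
      · rfl
      · show Sum.inr (Function.update id l m l, Sum.inl i) = Sum.inr (m, Sum.inl i)
        rw [Function.update_self]
      · show Sum.inr (Function.update id l m (y k).1, (y k).2) = Sum.inr (y k)
        rw [Function.update_of_ne (hl k).ne']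
        rfl
    · rw [List.pairwise_cons]
      refine ⟨fun s hs => ?_, hL⟩
      obtain ⟨i, hi⟩ := (hLx s).1 hs
      rw [← hi]
      exact hl i
    · rw [List.pairwise_append]
      refine ⟨hL, by simp, fun s hs t ht => ?_⟩
      obtain ⟨i, hi⟩ := (hLx s).1 hs
      rw [List.mem_singleton.1 ht, ← hi]
      exact hm i
    · intro i w hw
      rw [comp_apply] at hw
      rcases hi : τ i with v | (j | k)
      · rw [hi] at hw
        simp at hw
      · rw [hi] at hw
        simp only [Sum.map_inr, Sum.elim_inl, Sum.inr.injEq] at hw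
        rw [← hw]
        simp
      · rw [hi] at hw
        simp only [Sum.map_inr, Sum.elim_inr, Sum.inr.injEq] at hw
        rw [← hw]
        exact List.mem_cons_of_mem _ ((hLx _).2 ⟨k, rfl⟩)
    · intro s hs
      have c1 : cnt (re ∘ (Sum.map id (Sum.elim (fun i => (l, Sum.inl i)) y) ∘ τ :
          Fin r → V ⊕ Λ × (ι ⊕ κ))) l ≤ Nat.card ι := by
        refine (hcle _ l (range Sum.inl) ?_).trans ?_
        · intro i j hj
          rw [comp_apply] at hj
          rcases hi : τ i with v | (a | k)
          · rw [hi] at hj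
            simp at hj
          · rw [hi] at hj
            simp only [Sum.map_inr, Sum.elim_inl, Sum.inr.injEq, Prod.mk.injEq, true_and] at hj
            exact ⟨a, hj⟩
          · rw [hi] at hj
            simp only [Sum.map_inr, Sum.elim_inr, Sum.inr.injEq] at hj
            have := hl k
            rw [hj] at this
            exact absurd this (lt_irrefl _)
        · rw [← image_univ, ncard_image_of_injective _ Sum.inl_injective, ncard_univ]
      have c2 : cnt (re ∘ (Sum.map id (Sum.elim (fun i => (l, Sum.inl i)) y) ∘ τ :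
          Fin r → V ⊕ Λ × (ι ⊕ κ))) s < Nat.card κ := by
        obtain ⟨s', hs'⟩ := (hLx s).1 hs
        refine (hcle _ s ((fun i => (y i).2) '' {i | (y i).1 = s}) ?_).trans_lt ?_
        · intro i j hj
          rw [comp_apply] at hj
          rcases hi : τ i with v | (a | k)
          · rw [hi] at hj
            simp at hj
          · rw [hi] at hj
            simp only [Sum.map_inr, Sum.elim_inl, Sum.inr.injEq, Prod.mk.injEq] at hj
            have := hl s'
            rw [hs', ← hj.1] at this
            exact absurd this (lt_irrefl _)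
          · rw [hi] at hj
            simp only [Sum.map_inr, Sum.elim_inr, Sum.inr.injEq] at hj
            exact ⟨k, by show (y k).1 = s; rw [hj], by show (y k).2 = j; rw [hj]⟩
        · refine (ncard_image_le (toFinite _)).trans_lt ?_
          rw [← ncard_univ]
          refine ncard_lt_ncard ?_ finite_univ
          rw [ssubset_univ_iff]
          intro h
          have a1 : (y i0).1 = s := by
            have : i0 ∈ {i | (y i).1 = s} := by rw [h]; exact mem_univ _
            exact this
          have a2 : (y j0).1 = s := by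
            have : j0 ∈ {i | (y i).1 = s} := by rw [h]; exact mem_univ _
            exact this
          exact hij (a1.trans a2.symm)
      omega

end Pool.Agent.L7h69.UN
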