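import Pool.Agent.L7h71.UN.Stm

set_option autoImplicit false

/-!
# Project UN: iterated limits, changing the base point and the names of the blocks
-/

namespace Pool.Agent.L7h69.UN

open Set Filter Function Pool.Agent.L7h71.UN

section

variable {K V S : Type} [Finite K] {ι : S → Type}

open Classical in
theorem itl_nil (p : ∀ s, Ultrafilter (ι s → V)) (f : (∀ s, ι s → V) → K) (x : ∀ s, ι s → V) :
    itl p f [] x = f x := rfl

open Classical in
theorem itl_cons (p : ∀ s, Ultrafilter (ι s → V)) (f : (∀ s, ι s → V) → K) (s : S) (l : List S)
    (x : ∀ s, ι s → V) :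
    itl p f (s :: l) x = lim (p s) fun y => itl p f l (Function.update x s y) := rfl

open Classical in
/-- changing the base point outside the list and the relevant blocks -/
theorem itl_congr (p : ∀ s, Ultrafilter (ι s → V)) (f g : (∀ s, ι s → V) → K) (D : Set S)
    (hf : ∀ x x' : ∀ s, ι s → V, (∀ s ∈ D, x s = x' s) → f x = g x') (l : List S) :
    ∀ x x' : ∀ s, ι s → V, (∀ s ∈ D, s ∉ l → x s = x' s) → itl p f l x = itl p g l x' := by
  induction l with
  | nil => exact fun x x' h => hf x x' fun s hs => h s hs (by simp)
  | cons s l ih =>
    intro x x' h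
    rw [itl_cons, itl_cons]
    congr 1
    funext y
    refine ih _ _ fun t ht htl => ?_
    by_cases hts : t = s
    · subst hts
      rw [Function.update_self, Function.update_self]
    · rw [Function.update_of_ne hts, Function.update_of_ne hts]
      exact h t ht (by simp [hts, htl])

end

section ren

variable {K V S S' ι : Type} [Finite K]

open Classical in
/-- renaming the blocks, when all types are equal -/
theorem itl_ren (p : Ultrafilter (ι → V)) (f : (S → ι → V) → K) (D : Set S)
    (hf : ∀ x x' : S → ι → V, (∀ s ∈ D, x s = x' s) → f x = f x') (φ : S → S') (l : List S) :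
    InjOn φ (D ∪ {s | s ∈ l}) → ∀ x0 : S' → ι → V,
    itl (ι := fun _ : S' => ι) (fun _ => p) (fun x => f fun s => x (φ s)) (l.map φ) x0 =
      itl (ι := fun _ : S => ι) (fun _ => p) f l fun s => x0 (φ s) := by
  induction l with
  | nil => exact fun _ x0 => rfl
  | cons s l ih =>
    intro hφ x0
    rw [List.map_cons, itl_cons, itl_cons]
    congr 1
    funext y
    have h1 : InjOn φ (D ∪ {s | s ∈ l}) := hφ.mono (by
      rintro t (ht | ht)
      · exact Or.inl ht
      · exact Or.inr (List.mem_cons_of_mem s ht))
    rw [ih h1]
    refine itl_congr _ _ _ D hf _ _ _ fun t ht _ => ?_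
    show Function.update x0 (φ s) y (φ t) = Function.update (fun s => x0 (φ s)) s y t
    by_cases hts : t = s
    · subst hts
      rw [Function.update_self, Function.update_self]
    · have h2 : φ t ≠ φ s := fun h =>
        hts (hφ (Or.inl ht) (Or.inr (by simp)) h)
      rw [Function.update_of_ne hts, Function.update_of_ne h2]

end ren

end Pool.Agent.L7h69.UN
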